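import Pool.Agent.Q246.BI.Solo
import Pool.Agent.Q246.BI.Cos

/-! Virtual characters of degree zero are combinations of differences of induced linear characters. -/

set_option autoImplicit false
set_option linter.unusedSectionVars false

namespace Pool.Agent.Q290.DZ

open Pool.Agent.Q246.BI Pool.Agent.H302R3 MulAction
open scoped Classical

section
variable {G : Type} [Group G] [Finite G]

/-- hyperelementary: a normal cyclic subgroup of order prime to `p` with a `p`-group as quotient -/
def Hyp (U : Type) [Group U] : Prop := ∃ p : ℕ, p.Prime ∧ HypP p U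

/-- the differences of characters induced from linear characters of one subgroup -/
def D1 (G : Type) [Group G] [Finite G] : AddSubgroup (G → ℂ) :=
  AddSubgroup.closure {f | ∃ (H : Subgroup G) (ψ : H →* ℂˣ),
    f = Ind H (fun h => ((ψ h : ℂˣ) : ℂ)) - Ind H (fun _ => 1)}

/-- the same for hyperelementary subgroups -/
def D0 (G : Type) [Group G] [Finite G] : AddSubgroup (G → ℂ) :=
  AddSubgroup.closure {f | ∃ (H : Subgroup G) (ψ : H →* ℂˣ), Hyp H ∧
    f = Ind H (fun h => ((ψ h : ℂˣ) : ℂ)) - Ind H (fun _ => 1)}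

theorem ind_sub' (H : Subgroup G) (η η' : H → ℂ) : Ind H (η - η') = Ind H η - Ind H η' := by
  rw [sub_eq_add_neg, ind_add, ind_neg, ← sub_eq_add_neg]

theorem ind_nsmul' (H : Subgroup G) (η : H → ℂ) (m : ℕ) : Ind H (m • η) = m • Ind H η := by
  induction m with
  | zero => rw [zero_nsmul, zero_nsmul, ind_zero]
  | succ m ih => rw [succ_nsmul, succ_nsmul, ind_add, ih]

/-- moving a linear character of a subgroup of a subgroup -/
theorem push (H : Subgroup G) (K : Subgroup H) (ψ : K →* ℂˣ) :
    ∃ ψ' : K.map H.subtype →* ℂˣ,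
      Ind H (Ind K (fun k => ((ψ k : ℂˣ) : ℂ))) = Ind (K.map H.subtype)
        (fun k => ((ψ' k : ℂˣ) : ℂ)) ∧
      Ind H (Ind K (fun _ => 1)) = Ind (K.map H.subtype) (fun _ => 1) := by
  have hK : ∀ g : G, g ∈ K.map H.subtype ↔ ∃ h : g ∈ H, (⟨g, h⟩ : H) ∈ K := by
    intro g
    constructor
    · rintro ⟨k, hk, rfl⟩
      exact ⟨k.2, hk⟩
    · rintro ⟨h, hk⟩
      exact ⟨⟨g, h⟩, hk, rfl⟩
  let ψ' : K.map H.subtype →* ℂˣ :=
    { toFun := fun k => ψ ⟨⟨k, ((hK _).1 k.2).choose⟩, ((hK _).1 k.2).choose_spec⟩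
      map_one' := map_one ψ
      map_mul' := fun a b => by
        rw [← map_mul]
        rfl }
  exact ⟨ψ', ind_trans H K _ _ hK _ fun k hk hk' => rfl, ind_trans H K _ _ hK _ fun k hk hk' => rfl⟩

theorem D1.ind (H : Subgroup G) {η : H → ℂ} (hη : η ∈ D1 H) : Ind H η ∈ D1 G := by
  induction hη using AddSubgroup.closure_induction with
  | mem f hf =>
    obtain ⟨K, ψ, rfl⟩ := hf
    obtain ⟨ψ', h1, h2⟩ := push H K ψ
    exact AddSubgroup.subset_closure ⟨_, ψ', by rw [ind_sub', h1, h2]⟩
  | zero => rw [ind_zero]; exact zero_mem _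
  | add a b _ _ ha hb => rw [ind_add]; exact add_mem ha hb
  | neg a _ ha => rw [ind_neg]; exact neg_mem ha

theorem D1.ind0 (H : Subgroup G) (hH : Hyp H) {η : H → ℂ} (hη : η ∈ D1 H) : Ind H η ∈ D0 G := by
  induction hη using AddSubgroup.closure_induction with
  | mem f hf =>
    obtain ⟨K, ψ, rfl⟩ := hf
    obtain ⟨ψ', h1, h2⟩ := push H K ψ
    obtain ⟨p, hp, hP⟩ := hH
    refine AddSubgroup.subset_closure ⟨_, ψ', ⟨p, hp, ?_⟩, by rw [ind_sub', h1, h2]⟩
    have hle : K.map H.subtype ≤ H := by
      rintro g ⟨k, -, rfl⟩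
      exact k.2
    exact HypP.of_injective (Subgroup.inclusion hle) (Subgroup.inclusion_injective hle) hP
  | zero => rw [ind_zero]; exact zero_mem _
  | add a b _ _ ha hb => rw [ind_add]; exact add_mem ha hb
  | neg a _ ha => rw [ind_neg]; exact neg_mem ha

theorem D1.infl {R : Type} [Group R] [Finite R] (π : G →* R) (hπ : Function.Surjective π)
    {η : R → ℂ} (hη : η ∈ D1 R) : (fun g => η (π g)) ∈ D1 G := by
  induction hη using AddSubgroup.closure_induction with
  | mem f hf =>
    obtain ⟨H, ψ, rfl⟩ := hf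
    let ψ' : H.comap π →* ℂˣ :=
      { toFun := fun k => ψ ⟨π k, k.2⟩
        map_one' := by
          rw [← map_one ψ]
          congr 1
          apply Subtype.ext
          change π 1 = 1
          exact map_one π
        map_mul' := fun a b => by
          rw [← map_mul]
          congr 1
          apply Subtype.ext
          change π (a * b) = π a * π b
          exact map_mul π _ _ }
    refine AddSubgroup.subset_closure ⟨H.comap π, ψ', ?_⟩
    funext g
    rw [Pi.sub_apply, Pi.sub_apply,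
      ind_infl π hπ H _ (H.comap π) (fun g => Iff.rfl) (fun h => ((ψ' h : ℂˣ) : ℂ))
        (fun g h' h => rfl) g,
      ind_infl π hπ H _ (H.comap π) (fun g => Iff.rfl) (fun _ => 1) (fun g h' h => rfl) g]
  | zero => exact zero_mem (D1 G)
  | add a b _ _ ha hb => exact add_mem (S := AddSubgroup (G → ℂ)) ha hb
  | neg a _ ha => exact neg_mem (S := AddSubgroup (G → ℂ)) ha

/-- the functions which are a constant up to the group of differences -/
def M1 (G : Type) [Group G] [Finite G] : AddSubgroup (G → ℂ) where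
  carrier := {f | (fun g => f g - f 1) ∈ D1 G}
  zero_mem' := by
    change (fun g : G => (0 : ℂ) - 0) ∈ D1 G
    have : (fun _ : G => (0 : ℂ) - 0) = 0 := by
      funext g
      simp
    rw [this]
    exact zero_mem _
  add_mem' := by
    intro a b ha hb
    change (fun g => (a g + b g) - (a 1 + b 1)) ∈ D1 G
    have : (fun g => (a g + b g) - (a 1 + b 1)) = (fun g => a g - a 1) + fun g => b g - b 1 := by
      funext g
      simp only [Pi.add_apply]
      ring
    rw [this]
    exact add_mem ha hb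
  neg_mem' := by
    intro a ha
    change (fun g => (-a g) - (-a 1)) ∈ D1 G
    have : (fun g => (-a g) - (-a 1)) = -(fun g => a g - a 1) := by
      funext g
      simp only [Pi.neg_apply]
      ring
    rw [this]
    exact neg_mem ha

theorem mem_M1 {f : G → ℂ} : f ∈ M1 G ↔ (fun g => f g - f 1) ∈ D1 G := Iff.rfl

theorem ind_one_apply (H : Subgroup G) (η : H → ℂ) :
    Ind H η 1 = (Nat.card G : ℂ) * (Nat.card H : ℂ)⁻¹ * η 1 := by
  have : Fintype G := Fintype.ofFinite G
  rw [ind_eq]
  have h1 : ∀ x : G, ext H η (x⁻¹ * 1 * x) = η 1 := by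
    intro x
    have h2 : x⁻¹ * 1 * x = 1 := by group
    rw [h2, ext_mem H.one_mem]
    rfl
  rw [Finset.sum_congr rfl fun x _ => h1 x, Finset.sum_const, nsmul_eq_mul, Finset.card_univ,
    ← Nat.card_eq_fintype_card]
  ring

theorem D1_one {f : G → ℂ} (hf : f ∈ D1 G) : f 1 = 0 := by
  induction hf using AddSubgroup.closure_induction with
  | mem f hf =>
    obtain ⟨K, ψ, rfl⟩ := hf
    rw [Pi.sub_apply, ind_one_apply, ind_one_apply, map_one, Units.val_one, sub_self]
  | zero => rfl
  | add a b _ _ ha hb => rw [Pi.add_apply, ha, hb, add_zero]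
  | neg a _ ha => rw [Pi.neg_apply, ha, neg_zero]

theorem D1_le_M1 {f : G → ℂ} (hf : f ∈ D1 G) : f ∈ M1 G := by
  rw [mem_M1, D1_one hf]
  simpa using hf

/-- a subgroup which is everything -/
theorem ind_all (H : Subgroup G) (hH : ∀ g, g ∈ H) (η : H → ℂ)
    (hη : ∀ a b : H, η (b⁻¹ * a * b) = η a) (g : G) : Ind H η g = η ⟨g, hH g⟩ := by
  have : Fintype G := Fintype.ofFinite G
  rw [ind_eq]
  have h1 : ∀ x : G, ext H η (x⁻¹ * g * x) = η ⟨g, hH g⟩ := by
    intro x
    rw [ext_mem (hH _), ← hη ⟨g, hH g⟩ ⟨x, hH x⟩]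
    rfl
  have h2 : Nat.card H = Nat.card G := by
    have : H = ⊤ := by
      ext g
      exact ⟨fun _ => Subgroup.mem_top _, fun _ => hH g⟩
    rw [this]
    exact Nat.card_congr Subgroup.topEquiv.toEquiv
  rw [Finset.sum_congr rfl fun x _ => h1 x, Finset.sum_const, nsmul_eq_mul, Finset.card_univ,
    ← Nat.card_eq_fintype_card, h2, ← mul_assoc]
  have h3 : (Nat.card G : ℂ) ≠ 0 := by exact_mod_cast Nat.card_pos.ne'
  rw [inv_mul_cancel₀ h3, one_mul]

/-- a linear character -/
theorem lin_M1 (H : Subgroup G) (hH : ∀ g, g ∈ H) (ψ : H →* ℂˣ) :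
    Ind H (fun h => ((ψ h : ℂˣ) : ℂ)) ∈ M1 G := by
  rw [mem_M1]
  refine AddSubgroup.subset_closure ⟨H, ψ, ?_⟩
  funext g
  have hcl : ∀ a b : H, (((ψ (b⁻¹ * a * b) : ℂˣ) : ℂ)) = ((ψ a : ℂˣ) : ℂ) := by
    intro a b
    rw [map_mul, map_mul, map_inv, mul_comm, mul_inv_cancel_left]
  rw [Pi.sub_apply, ind_all H hH (fun _ => 1) (fun _ _ => rfl), ind_one_apply, map_one,
    Units.val_one]
  have h2 : Nat.card H = Nat.card G := by
    have : H = ⊤ := by
      ext g
      exact ⟨fun _ => Subgroup.mem_top _, fun _ => hH g⟩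
    rw [this]
    exact Nat.card_congr Subgroup.topEquiv.toEquiv
  have h3 : (Nat.card G : ℂ) ≠ 0 := by exact_mod_cast Nat.card_pos.ne'
  rw [h2, mul_inv_cancel₀ h3, mul_one]

/-- the degree zero theorem for hyperelementary groups -/
theorem hyp_deg {p : ℕ} (hp : p.Prime) (N : ℕ) : ∀ (Q : Type) [Group Q] [Finite Q],
    Nat.card Q = N → HypP p Q → ∀ χ : Q → ℂ, IsCh χ → χ ∈ M1 Q := by
  induction N using Nat.strong_induction_on with
  | _ N ih =>
    intro Q _ _ hN hQ χ hχ
    by_cases hab : ∀ a b : Q, a * b = b * a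
    · refine clifford (⊤ : Subgroup Q) (fun g a _ => Subgroup.mem_top _)
        (fun a b => Subtype.ext (hab a b)) _ ?_ χ hχ
      intro ψ W _ _ _ ρ hρ
      let ψ' : St (⊤ : Subgroup Q) (fun g a _ => Subgroup.mem_top _) ψ →* ℂˣ :=
        { toFun := fun h => ψ ⟨h, Subgroup.mem_top _⟩
          map_one' := map_one ψ
          map_mul' := fun a b => by
            rw [← map_mul]
            rfl }
      have h1 : (fun h => LinearMap.trace ℂ W (ρ h)) =
          Module.finrank ℂ W • fun h => ((ψ' h : ℂˣ) : ℂ) := by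
        funext h
        rw [hρ h (Subgroup.mem_top _), map_smul, LinearMap.trace_one, Pi.smul_apply, nsmul_eq_mul,
          smul_eq_mul, mul_comm]
        rfl
      have hall : ∀ g : Q, g ∈ St (⊤ : Subgroup Q) (fun g a _ => Subgroup.mem_top _) ψ := by
        intro g a
        congr 1
        apply Subtype.ext
        change g⁻¹ * (a : Q) * g = a
        rw [hab, mul_inv_cancel_left]
      rw [h1, ind_nsmul']
      exact AddSubgroup.nsmul_mem _ (lin_M1 _ hall ψ') _
    · obtain ⟨A, hn, hA, a, ha, q, hq⟩ := exists_abelian hp hQ hab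
      have hnorm : A.Normal := ⟨fun x hx g => by simpa using hn g⁻¹ x hx⟩
      have hane : a ≠ 1 := by
        rintro rfl
        exact hq (by group)
      have hAnt : Nontrivial A := ⟨⟨⟨a, ha⟩, 1, fun h => hane (congrArg Subtype.val h)⟩⟩
      have hcardA : Nat.card (Q ⧸ A) < N := by
        have h1 := Subgroup.card_eq_card_quotient_mul_card_subgroup A
        have h2 : 1 < Nat.card A := Finite.one_lt_card
        have h4 : 0 < Nat.card (Q ⧸ A) := Nat.card_pos
        rw [← hN]
        nlinarith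
      have hHA : HypP p (Q ⧸ A) :=
        hypP_of_surjective (QuotientGroup.mk' A) (QuotientGroup.mk'_surjective _) hQ
      refine clifford A hn hA _ ?_ χ hχ
      intro ψ W _ _ _ ρ hρ
      have hAS : A ≤ St A hn ψ := by
        intro x hx b
        congr 1
        apply Subtype.ext
        change x⁻¹ * (b : Q) * x = b
        have h1 := congrArg Subtype.val (hA b ⟨x, hx⟩)
        change (b : Q) * x = x * b at h1
        rw [mul_assoc, h1, inv_mul_cancel_left]
      have hperm : Ind (St A hn ψ) (fun _ => (1 : ℂ)) ∈ M1 Q := by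
        have h1 : IsCh (Ind ((St A hn ψ).map (QuotientGroup.mk' A)) (fun _ => (1 : ℂ))) := by
          have := isCh_ind ((St A hn ψ).map (QuotientGroup.mk' A)) 1
          simpa using this
        have h2 := ih _ hcardA (Q ⧸ A) rfl hHA _ h1
        rw [mem_M1] at h2
        have h3 := D1.infl (QuotientGroup.mk' A) (QuotientGroup.mk'_surjective _) h2
        have h4 : ∀ g : Q, g ∈ St A hn ψ ↔
            QuotientGroup.mk' A g ∈ (St A hn ψ).map (QuotientGroup.mk' A) := by
          intro g
          constructor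
          · exact fun h => ⟨g, h, rfl⟩
          · rintro ⟨k, hk, hkg⟩
            have h5 : k⁻¹ * g ∈ A := QuotientGroup.eq.1 hkg
            have h6 := (St A hn ψ).mul_mem hk (hAS h5)
            rwa [mul_inv_cancel_left] at h6
        have h7 : ∀ g : Q, Ind ((St A hn ψ).map (QuotientGroup.mk' A)) (fun _ => (1 : ℂ))
            (QuotientGroup.mk' A g) = Ind (St A hn ψ) (fun _ => (1 : ℂ)) g := fun g =>
          ind_infl (QuotientGroup.mk' A) (QuotientGroup.mk'_surjective _) _ _ (St A hn ψ) h4
            (fun _ => 1) (fun g h' h => rfl) g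
        rw [mem_M1]
        have h8 : (fun g => Ind (St A hn ψ) (fun _ => (1 : ℂ)) g -
            Ind (St A hn ψ) (fun _ => (1 : ℂ)) 1) = fun g =>
            (fun r => Ind ((St A hn ψ).map (QuotientGroup.mk' A)) (fun _ => (1 : ℂ)) r -
              Ind ((St A hn ψ).map (QuotientGroup.mk' A)) (fun _ => (1 : ℂ)) 1)
              (QuotientGroup.mk' A g) := by
          funext g
          simp only
          rw [h7, ← map_one (QuotientGroup.mk' A), h7]
        rw [h8]
        exact h3
      have hSt : HypP p (St A hn ψ) := hQ.of_injective (St A hn ψ).subtype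
        (Subgroup.subtype_injective _)
      have hM : (fun h => LinearMap.trace ℂ W (ρ h)) ∈ M1 (St A hn ψ) := by
        by_cases htop : St A hn ψ = ⊤
        · have hqs : q ∈ St A hn ψ := by rw [htop]; exact Subgroup.mem_top _
          have hk1 : (q⁻¹ * a * q) * a⁻¹ ∈ A := A.mul_mem (hn q a ha) (A.inv_mem ha)
          have hk2 : (q⁻¹ * a * q) * a⁻¹ ∈ St A hn ψ := by rw [htop]; exact Subgroup.mem_top _
          have hker : (⟨(q⁻¹ * a * q) * a⁻¹, hk2⟩ : St A hn ψ) ∈ ρ.ker := by
            rw [MonoidHom.mem_ker, hρ _ hk1]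
            have h1 : (⟨(q⁻¹ * a * q) * a⁻¹, hk1⟩ : A) =
                ⟨q⁻¹ * a * q, hn q a ha⟩ * (⟨a, ha⟩ : A)⁻¹ := rfl
            have h2 : ψ ⟨(q⁻¹ * a * q) * a⁻¹, hk1⟩ = 1 := by
              rw [h1, map_mul, map_inv, hqs ⟨a, ha⟩, mul_inv_cancel]
            change ((ψ ⟨(q⁻¹ * a * q) * a⁻¹, hk1⟩ : ℂˣ) : ℂ) • (1 : Module.End ℂ W) = 1
            rw [h2, Units.val_one, one_smul]
          have hkne : (⟨(q⁻¹ * a * q) * a⁻¹, hk2⟩ : St A hn ψ) ≠ 1 := by
            intro h
            have h1 := congrArg Subtype.val h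
            change (q⁻¹ * a * q) * a⁻¹ = 1 at h1
            exact hq (mul_inv_eq_one.1 h1)
          have hnt : Nontrivial ρ.ker := ⟨⟨_, hker⟩, 1, fun h => hkne (congrArg Subtype.val h)⟩
          have hcard : Nat.card (St A hn ψ ⧸ ρ.ker) < N := by
            have h1 := Subgroup.card_eq_card_quotient_mul_card_subgroup ρ.ker
            have h2 : 1 < Nat.card ρ.ker := Finite.one_lt_card
            have h3 : Nat.card (St A hn ψ) ≤ N := by
              rw [← hN]
              exact Subgroup.card_le_card_group _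
            have h4 : 0 < Nat.card (St A hn ψ ⧸ ρ.ker) := Nat.card_pos
            nlinarith
          have hH : HypP p (St A hn ψ ⧸ ρ.ker) :=
            hypP_of_surjective (QuotientGroup.mk' ρ.ker) (QuotientGroup.mk'_surjective _) hSt
          have h5 := ih _ hcard (St A hn ψ ⧸ ρ.ker) rfl hH
            (fun x => LinearMap.trace ℂ W (QuotientGroup.lift ρ.ker ρ le_rfl x))
            (isCh_of_rep (QuotientGroup.lift ρ.ker ρ le_rfl))
          rw [mem_M1] at h5 ⊢
          exact D1.infl (QuotientGroup.mk' ρ.ker) (QuotientGroup.mk'_surjective _) h5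
        · have hcard : Nat.card (St A hn ψ) < N := by
            rw [← hN]
            refine lt_of_le_of_ne (Subgroup.card_le_card_group _) fun h => htop ?_
            exact Subgroup.eq_top_of_card_eq _ h
          exact ih _ hcard (St A hn ψ) rfl hSt _ (isCh_of_rep ρ)
      have h9 : (fun h => LinearMap.trace ℂ W (ρ h)) =
          (fun h => LinearMap.trace ℂ W (ρ h) - LinearMap.trace ℂ W (ρ 1)) +
            Module.finrank ℂ W • fun _ => (1 : ℂ) := by
        funext h
        rw [Pi.add_apply, map_one, LinearMap.trace_one, Pi.smul_apply, nsmul_eq_mul, mul_one,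
          sub_add_cancel]
      rw [h9, ind_add, ind_nsmul']
      exact AddSubgroup.add_mem _ (D1_le_M1 (D1.ind _ (mem_M1.1 hM)))
        (AddSubgroup.nsmul_mem _ hperm _)

/-- **The degree zero theorem**: a character minus its degree -/
theorem deg_zero (χ : G → ℂ) (hχ : IsCh χ) : (fun g => χ g - χ 1) ∈ D0 G := by
  obtain ⟨f₁, f₂, ⟨X, i1, i2, h1, h2⟩, ⟨X', i3, i4, h3, h4⟩, h5⟩ := solomon (G := G)
  have hcl : ∀ g h : G, (fun g => χ g - χ 1) (h * g * h⁻¹) = (fun g => χ g - χ 1) g := by
    intro g h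
    simp only
    rw [ch_conj hχ]
  have key : ∀ H : Subgroup G, Hyp H → Ind H (fun h => (fun g => χ g - χ 1) (h : G)) ∈ D0 G := by
    rintro H ⟨p, hp, hH⟩
    have h6 := hyp_deg hp _ H rfl hH _ (isCh_comp H.subtype hχ)
    exact D1.ind0 H ⟨p, hp, hH⟩ h6
  have h6 := perm_mul h2 (fun g => χ g - χ 1) hcl (D0 G) fun x => key _ (h1 x)
  have h7 := perm_mul h4 (fun g => χ g - χ 1) hcl (D0 G) fun x => key _ (h3 x)
  have h8 : (fun g => χ g - χ 1) =
      (fun g => (f₁ g : ℂ) * (χ g - χ 1)) - fun g => (f₂ g : ℂ) * (χ g - χ 1) := by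
    funext g
    rw [Pi.sub_apply, h5]
    push_cast
    ring
  rw [h8]
  exact (D0 G).sub_mem h6 h7

end

end Pool.Agent.Q290.DZ
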