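import Pool.Agent.Q290.DZ.Per

/-! Families of multiplicative functions with the same constants. -/

set_option autoImplicit false
set_option linter.unusedSectionVars false

namespace Pool.Agent.Q290.DZ

open Pool.Agent.Q246.BI Pool.Agent.H302R3 MulAction
open scoped Classical

section
variable {G : Type} [Group G] [Finite G]

/-- equal to one on generators -/
theorem Mult.gen (X : Mult G) {S : Set (G → ℂ)} (hS : ∀ f ∈ S, IsCh f ∧ X.val f = 1)
    {f : G → ℂ} (hf : f ∈ AddSubgroup.closure S) :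
    ∃ a b, IsCh a ∧ IsCh b ∧ f = a - b ∧ X.val a = X.val b := by
  induction hf using AddSubgroup.closure_induction with
  | mem f hf => exact ⟨f, 0, (hS f hf).1, isCh_zero, by rw [sub_zero], by rw [(hS f hf).2, X.zero]⟩
  | zero => exact ⟨0, 0, isCh_zero, isCh_zero, by rw [sub_zero], rfl⟩
  | add f f' _ _ hf hf' =>
    obtain ⟨a, b, ha, hb, rfl, hab⟩ := hf
    obtain ⟨a', b', ha', hb', rfl, hab'⟩ := hf'
    refine ⟨a + a', b + b', isCh_add ha ha', isCh_add hb hb', ?_, ?_⟩
    · abel
    · rw [X.add _ _ ha ha', X.add _ _ hb hb', hab, hab']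
  | neg f _ hf =>
    obtain ⟨a, b, ha, hb, rfl, hab⟩ := hf
    exact ⟨b, a, hb, ha, by rw [neg_sub], hab.symm⟩

/-- **Solomon**: a multiplicative function which is one on the permutation characters of the
hyperelementary subgroups is one at the trivial character. -/
theorem Mult.one_of_perm (X : Mult G)
    (h : ∀ H : Subgroup G, Hyp H → X.val (Ind H (fun _ => 1)) = 1) :
    X.val (fun _ => 1) = 1 := by
  obtain ⟨f₁, f₂, ⟨Y, i1, i2, h1, h2⟩, ⟨Y', i3, i4, h3, h4⟩, h5⟩ := solomon (G := G)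
  let S : Set (G → ℂ) := {f | ∃ H : Subgroup G, Hyp H ∧ f = Ind H (fun _ => 1)}
  have hS : ∀ f ∈ S, IsCh f ∧ X.val f = 1 := by
    rintro f ⟨H, hH, rfl⟩
    refine ⟨?_, h H hH⟩
    have := isCh_ind H 1
    simpa using this
  have h6 := perm_mul h2 (fun _ => 1) (fun _ _ => rfl) (AddSubgroup.closure S)
    fun x => AddSubgroup.subset_closure ⟨_, h1 x, rfl⟩
  have h7 := perm_mul h4 (fun _ => 1) (fun _ _ => rfl) (AddSubgroup.closure S)
    fun x => AddSubgroup.subset_closure ⟨_, h3 x, rfl⟩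
  have h8 : (fun _ : G => (1 : ℂ)) =
      (fun g => (f₁ g : ℂ) * 1) - fun g => (f₂ g : ℂ) * 1 := by
    funext g
    rw [Pi.sub_apply, h5]
    push_cast
    ring
  obtain ⟨a, b, ha, hb, hab, h9⟩ := X.gen hS (h8 ▸ (AddSubgroup.closure S).sub_mem h6 h7)
  have h10 : (fun _ : G => (1 : ℂ)) + b = a := by
    rw [hab]
    abel
  have h11 := congrArg X.val h10
  rw [X.add _ _ isCh_one hb, h9] at h11
  exact mul_right_cancel₀ (X.ne b hb) (by rw [h11, one_mul])

/-- quotient of two multiplicative functions -/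
noncomputable def Mult.quo (X Y : Mult G) : Mult G where
  val := fun χ => X.val χ / Y.val χ
  ne := fun χ h => div_ne_zero (X.ne _ h) (Y.ne _ h)
  add := fun χ χ' h h' => by rw [X.add _ _ h h', Y.add _ _ h h', mul_div_mul_comm]

/-- two multiplicative functions with the same values, depending only on the subgroup -/
theorem Mult.same (X Y : Mult G) (c : Subgroup G → ℂ)
    (hX : ∀ H : Subgroup G, Hyp H → ∀ ψ : H →* ℂˣ,
      X.val (Ind H (fun h => ((ψ h : ℂˣ) : ℂ))) = c H)
    (hY : ∀ H : Subgroup G, Hyp H → ∀ ψ : H →* ℂˣ,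
      Y.val (Ind H (fun h => ((ψ h : ℂˣ) : ℂ))) = c H)
    {χ : G → ℂ} (hχ : IsCh χ) {n : ℕ} (hn : χ 1 = n) : X.val χ = Y.val (fun _ => 1) ^ n := by
  have h0 : ∀ H : Subgroup G, IsCh (Ind H (fun _ => (1 : ℂ))) := by
    intro H
    have := isCh_ind H 1
    simpa using this
  have hX' : ∀ H : Subgroup G, Hyp H → X.val (Ind H (fun _ => 1)) = c H := by
    intro H hH
    have := hX H hH 1
    simpa using this
  have hY' : ∀ H : Subgroup G, Hyp H → Y.val (Ind H (fun _ => 1)) = c H := by
    intro H hH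
    have := hY H hH 1
    simpa using this
  have h1 := (X.quo Y).one_of_perm fun H hH => by
    change X.val _ / Y.val _ = 1
    rw [hX' H hH, hY' H hH]
    refine div_self ?_
    rw [← hY' H hH]
    exact Y.ne _ (h0 H)
  change X.val _ / Y.val _ = 1 at h1
  rw [div_eq_one_iff_eq (Y.ne _ isCh_one)] at h1
  rw [X.power (fun H hH ψ => by rw [hX H hH, hX' H hH]) hχ hn, h1]

end

end Pool.Agent.Q290.DZ
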