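import Pool.Agent.Q290.DZ.Deg
import Pool.Agent.TH119.MX.Gal

/-! Multiplicative functions on characters; constants which depend only on the subgroup. -/

set_option autoImplicit false
set_option linter.unusedSectionVars false

namespace Pool.Agent.Q290.DZ

open Pool.Agent.Q246.BI Pool.Agent.H302R3 MulAction
open scoped Classical

theorem isCh_add {G : Type} [Group G] {χ χ' : G → ℂ} (h : IsCh χ) (h' : IsCh χ') :
    IsCh (χ + χ') := by
  obtain ⟨n, ρ, hρ⟩ := h.rep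
  obtain ⟨n', ρ', hρ'⟩ := h'.rep
  let σ : G →* Module.End ℂ ((Fin n → ℂ) × (Fin n' → ℂ)) :=
    { toFun := fun g => LinearMap.prodMap (ρ g) (ρ' g)
      map_one' := by
        rw [map_one, map_one]
        rfl
      map_mul' := fun a b => by
        rw [map_mul, map_mul]
        rfl }
  refine cast (congrArg IsCh ?_) (isCh_of_rep σ)
  funext g
  change LinearMap.trace ℂ _ (LinearMap.prodMap (ρ g) (ρ' g)) = _
  rw [LinearMap.trace_prodMap', Pi.add_apply, hρ, hρ']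

theorem isCh_zero {G : Type} [Group G] : IsCh (0 : G → ℂ) :=
  ⟨0, 1, fun g => by simp [Matrix.trace]⟩

theorem isCh_nsmul {G : Type} [Group G] {χ : G → ℂ} (h : IsCh χ) (m : ℕ) : IsCh (m • χ) := by
  induction m with
  | zero => rw [zero_smul]; exact isCh_zero
  | succ m ih => rw [succ_nsmul]; exact isCh_add ih h

theorem isCh_one {G : Type} [Group G] : IsCh (fun _ : G => (1 : ℂ)) :=
  ⟨1, 1, fun g => by simp [Matrix.trace]⟩

/-- the image of a character under an automorphism of `ℂ` -/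
def conj {G : Type} (σ : ℂ ≃+* ℂ) (χ : G → ℂ) : G → ℂ := fun g => σ (χ g)

theorem isCh_conj {G : Type} [Group G] (σ : ℂ ≃+* ℂ) {χ : G → ℂ} (h : IsCh χ) :
    IsCh (conj σ χ) := by
  obtain ⟨n, τ, hτ⟩ := h
  refine ⟨n, (MonoidHomClass.toMonoidHom (σ : ℂ →+* ℂ).mapMatrix).comp τ, fun g => ?_⟩
  change σ (χ g) = ((σ : ℂ →+* ℂ).mapMatrix (τ g)).trace
  rw [hτ]
  simp [Matrix.trace, map_sum]

theorem conj_add {G : Type} (σ : ℂ ≃+* ℂ) (χ χ' : G → ℂ) :
    conj σ (χ + χ') = conj σ χ + conj σ χ' := by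
  funext g
  exact map_add σ _ _

theorem conj_const {G : Type} (σ : ℂ ≃+* ℂ) : conj σ (fun _ : G => (1 : ℂ)) = fun _ => 1 := by
  funext g
  exact map_one σ

/-- the degree of a character -/
theorem isCh_deg {G : Type} [Group G] {χ : G → ℂ} (h : IsCh χ) : ∃ n : ℕ, χ 1 = n := by
  obtain ⟨n, τ, hτ⟩ := h
  refine ⟨n, ?_⟩
  rw [hτ, map_one, Matrix.trace_one, Fintype.card_fin]

section
variable {G : Type} [Group G] [Finite G]

theorem conj_ind (σ : ℂ ≃+* ℂ) (H : Subgroup G) (η : H → ℂ) :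
    conj σ (Ind H η) = Ind H (conj σ η) := by
  have : Fintype G := Fintype.ofFinite G
  funext g
  change σ (Ind H η g) = Ind H (conj σ η) g
  rw [ind_eq, ind_eq, map_mul, map_inv₀, map_natCast, map_sum]
  congr 1
  refine Finset.sum_congr rfl fun x _ => ?_
  unfold ext
  split_ifs
  · rfl
  · exact map_zero σ

/-- a nonzero number for every character, the product for a sum of characters -/
structure Mult (G : Type) [Group G] [Finite G] where
  val : (G → ℂ) → ℂ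
  ne : ∀ χ, IsCh χ → val χ ≠ 0
  add : ∀ χ χ', IsCh χ → IsCh χ' → val (χ + χ') = val χ * val χ'

theorem Mult.zero (X : Mult G) : X.val 0 = 1 := by
  have h1 := X.add 0 0 isCh_zero isCh_zero
  rw [add_zero] at h1
  have h2 := X.ne 0 isCh_zero
  exact (mul_left_cancel₀ h2 (by rw [← h1, mul_one])).symm

theorem Mult.nsmul (X : Mult G) {χ : G → ℂ} (h : IsCh χ) (m : ℕ) :
    X.val (m • χ) = X.val χ ^ m := by
  induction m with
  | zero => rw [zero_smul, X.zero, pow_zero]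
  | succ m ih => rw [succ_nsmul, X.add _ _ (isCh_nsmul h m) h, ih, pow_succ]

/-- the combinations of differences do not change the number -/
theorem Mult.swap (X : Mult G)
    (hD : ∀ (H : Subgroup G), Hyp H → ∀ ψ : H →* ℂˣ,
      X.val (Ind H (fun h => ((ψ h : ℂˣ) : ℂ))) = X.val (Ind H (fun _ => 1)))
    {f : G → ℂ} (hf : f ∈ D0 G) : ∃ a b, IsCh a ∧ IsCh b ∧ f = a - b ∧ X.val a = X.val b := by
  induction hf using AddSubgroup.closure_induction with
  | mem f hf =>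
    obtain ⟨K, ψ, hK, rfl⟩ := hf
    have h1 : IsCh (Ind K (fun _ => (1 : ℂ))) := by
      have := isCh_ind K 1
      simpa using this
    exact ⟨_, _, isCh_ind K ψ, h1, rfl, hD K hK ψ⟩
  | zero => exact ⟨0, 0, isCh_zero, isCh_zero, by rw [sub_zero], rfl⟩
  | add f f' _ _ hf hf' =>
    obtain ⟨a, b, ha, hb, rfl, hab⟩ := hf
    obtain ⟨a', b', ha', hb', rfl, hab'⟩ := hf'
    refine ⟨a + a', b + b', isCh_add ha ha', isCh_add hb hb', ?_, ?_⟩
    · abel
    · rw [X.add _ _ ha ha', X.add _ _ hb hb', hab, hab']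
  | neg f _ hf =>
    obtain ⟨a, b, ha, hb, rfl, hab⟩ := hf
    exact ⟨b, a, hb, ha, by rw [neg_sub], hab.symm⟩

/-- **Independence of the linear character forces a power of one number.** -/
theorem Mult.power (X : Mult G)
    (hD : ∀ (H : Subgroup G), Hyp H → ∀ ψ : H →* ℂˣ,
      X.val (Ind H (fun h => ((ψ h : ℂˣ) : ℂ))) = X.val (Ind H (fun _ => 1)))
    {χ : G → ℂ} (hχ : IsCh χ) {n : ℕ} (hn : χ 1 = n) : X.val χ = X.val (fun _ => 1) ^ n := by
  obtain ⟨a, b, ha, hb, hab, h⟩ := X.swap hD (deg_zero χ hχ)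
  have h1 : χ + b = n • (fun _ => (1 : ℂ)) + a := by
    funext g
    have h2 := congrFun hab g
    simp only [Pi.sub_apply] at h2
    rw [hn] at h2
    rw [Pi.add_apply, Pi.add_apply, Pi.smul_apply, nsmul_eq_mul, mul_one]
    linear_combination h2
  have h2 := congrArg X.val h1
  rw [X.add _ _ hχ hb, X.add _ _ (isCh_nsmul isCh_one n) ha, X.nsmul isCh_one, h] at h2
  exact mul_right_cancel₀ (X.ne b hb) h2

/-- the quotient of two multiplicative functions, compared with its image under `σ` -/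
noncomputable def Mult.ratio (X Y : Mult G) (σ : ℂ ≃+* ℂ) (X' Y' : Mult G) : Mult G where
  val := fun χ => (X'.val (conj σ χ) / Y'.val (conj σ χ)) / σ (X.val χ / Y.val χ)
  ne := fun χ h => by
    refine div_ne_zero (div_ne_zero (X'.ne _ (isCh_conj σ h)) (Y'.ne _ (isCh_conj σ h))) ?_
    rw [ne_eq, map_eq_zero]
    exact div_ne_zero (X.ne _ h) (Y.ne _ h)
  add := fun χ χ' h h' => by
    rw [conj_add, X'.add _ _ (isCh_conj σ h) (isCh_conj σ h'),
      Y'.add _ _ (isCh_conj σ h) (isCh_conj σ h'), X.add _ _ h h', Y.add _ _ h h',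
      mul_div_mul_comm, mul_div_mul_comm, map_mul, mul_div_mul_comm]

theorem Mult.ratio_val (X Y : Mult G) (σ : ℂ ≃+* ℂ) (X' Y' : Mult G) (χ : G → ℂ) :
    (X.ratio Y σ X' Y').val χ = (X'.val (conj σ χ) / Y'.val (conj σ χ)) /
      σ (X.val χ / Y.val χ) := rfl

/-- rational numbers are the numbers fixed by all automorphisms -/
theorem rational_of_fixed {z : ℂ} (h : ∀ σ : ℂ ≃+* ℂ, σ z = z) : ∃ q : ℚ, z = q := by
  by_contra hcon
  have h1 : z ∉ (algebraMap ℚ ℂ).fieldRange := by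
    rintro ⟨q, hq⟩
    exact hcon ⟨q, hq.symm⟩
  obtain ⟨σ, -, h2⟩ := Pool.Agent.TH119.MX.exists_move h1
  exact h2 (h σ)

theorem ind_one_deg (H : Subgroup G) (ψ : H →* ℂˣ) :
    Ind H (fun h => ((ψ h : ℂˣ) : ℂ)) 1 = (H.index : ℂ) := by
  rw [ind_one_apply, map_one, Units.val_one, mul_one, ← H.index_mul_card, Nat.cast_mul,
    mul_assoc, mul_inv_cancel₀ (card_ne H), mul_one]

theorem conj_lin (σ : ℂ ≃+* ℂ) (H : Subgroup G) (ψ : H →* ℂˣ) :
    conj σ (fun h => ((ψ h : ℂˣ) : ℂ)) =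
      fun h => ((((Units.map (σ : ℂ →* ℂ)).comp ψ) h : ℂˣ) : ℂ) := rfl

/-- `x` is a rational multiple of `y` -/
def RatMul (x y : ℂ) : Prop := ∃ q : ℚ, x = q * y

/-- equivariance of a value, up to the numbers `P χ` and `c` -/
def EquiVal (X P : Mult G) (c : ℂ) (χ : G → ℂ) (σ : ℂ ≃+* ℂ) : Prop :=
  σ (X.val χ / (P.val χ * c)) = X.val (conj σ χ) / (P.val (conj σ χ) * c)

theorem EquiVal.iff {X P : Mult G} {c : ℂ} (hc : c ≠ 0) {χ : G → ℂ} (hχ : IsCh χ)
    (σ : ℂ ≃+* ℂ) : EquiVal X P c χ σ ↔ (X.ratio P σ X P).val χ = c / σ c := by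
  unfold EquiVal
  rw [Mult.ratio_val, map_div₀, map_div₀, map_mul]
  have h1 : σ c ≠ 0 := by rwa [ne_eq, map_eq_zero]
  have h2 : σ (X.val χ) ≠ 0 := by
    rw [ne_eq, map_eq_zero]
    exact X.ne _ hχ
  have h3 : σ (P.val χ) ≠ 0 := by
    rw [ne_eq, map_eq_zero]
    exact P.ne _ hχ
  have h4 := X.ne _ (isCh_conj σ hχ)
  have h5 := P.ne _ (isCh_conj σ hχ)
  rw [div_eq_div_iff (mul_ne_zero h3 h1) (mul_ne_zero h5 hc), div_eq_div_iff (div_ne_zero h2 h3) h1]
  constructor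
  · intro h
    field_simp
    linear_combination (-1 : ℂ) * h
  · intro h
    field_simp at h
    linear_combination (-1 : ℂ) * h

/-- **The period relation.** If the values over every field are equivariant up to a constant which
depends only on the field, the constants are powers of one number. -/
theorem period (X P : Mult G) (aut : Set (Subgroup G)) (hyp : ∀ H : Subgroup G, Hyp H → H ∈ aut)
    (top : ⊤ ∈ aut) (c : Subgroup G → ℂ) (hc : ∀ H ∈ aut, c H ≠ 0)
    (h : ∀ H ∈ aut, ∀ (ψ : H →* ℂˣ) (σ : ℂ ≃+* ℂ),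
      EquiVal X P (c H) (Ind H (fun h => ((ψ h : ℂˣ) : ℂ))) σ) :
    (∀ (χ : G → ℂ) (n : ℕ), IsCh χ → χ 1 = n → ∀ σ : ℂ ≃+* ℂ, EquiVal X P (c ⊤ ^ n) χ σ) ∧
    ∀ H ∈ aut, ∃ q : ℚ, q ≠ 0 ∧ c H = q * c ⊤ ^ H.index := by
  have h1 : ∀ (σ : ℂ ≃+* ℂ) (H : Subgroup G), H ∈ aut → ∀ ψ : H →* ℂˣ,
      (X.ratio P σ X P).val (Ind H (fun h => ((ψ h : ℂˣ) : ℂ))) = c H / σ (c H) := fun σ H hH ψ =>
    (EquiVal.iff (hc H hH) (isCh_ind H ψ) σ).1 (h H hH ψ σ)
  have h1' : ∀ (σ : ℂ ≃+* ℂ) (H : Subgroup G), H ∈ aut →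
      (X.ratio P σ X P).val (Ind H (fun _ => 1)) = c H / σ (c H) := by
    intro σ H hH
    have := h1 σ H hH 1
    simpa using this
  have h2 : ∀ (σ : ℂ ≃+* ℂ) (χ : G → ℂ) (n : ℕ), IsCh χ → χ 1 = n →
      (X.ratio P σ X P).val χ = (c ⊤ / σ (c ⊤)) ^ n := by
    intro σ χ n hχ hn
    rw [(X.ratio P σ X P).power (fun H hH ψ => by rw [h1 σ H (hyp H hH) ψ, h1' σ H (hyp H hH)])
      hχ hn, ← h1' σ ⊤ top]
    congr 2
    funext g
    exact (ind_all ⊤ (fun g => Subgroup.mem_top g) (fun _ => 1) (fun _ _ => rfl) g).symm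
  refine ⟨fun χ n hχ hn σ => ?_, fun H hH => ?_⟩
  · rw [EquiVal.iff (pow_ne_zero n (hc ⊤ top)) hχ, h2 σ χ n hχ hn, div_pow, map_pow]
  · have hpow : c ⊤ ^ H.index ≠ 0 := pow_ne_zero _ (hc ⊤ top)
    obtain ⟨q, hq⟩ := rational_of_fixed (z := c H / c ⊤ ^ H.index) (fun σ => by
      have h3 := h2 σ _ H.index (isCh_ind H 1) (ind_one_deg H 1)
      rw [h1 σ H hH 1] at h3
      rw [map_div₀, map_pow]
      have h4 : σ (c H) ≠ 0 := by
        rw [ne_eq, map_eq_zero]
        exact hc H hH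
      have h5 : σ (c ⊤) ≠ 0 := by
        rw [ne_eq, map_eq_zero]
        exact hc ⊤ top
      rw [div_pow, div_eq_div_iff h4 (pow_ne_zero _ h5)] at h3
      rw [div_eq_div_iff (pow_ne_zero _ h5) hpow]
      linear_combination (-1 : ℂ) * h3)
    refine ⟨q, ?_, ?_⟩
    · rintro rfl
      rw [Rat.cast_zero, div_eq_zero_iff] at hq
      exact hq.elim (hc H hH) hpow
    · rw [← hq, div_mul_cancel₀ _ hpow]

end

end Pool.Agent.Q290.DZ
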